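import Mathlib

open CategoryTheory Category Limits Pretriangulated Triangulated DerivedCategory

set_option autoImplicit false

namespace Pool.Agent.H381.TauN

universe w v u

variable {A : Type u} [Category.{v} A] [Abelian A] [HasDerivedCategory.{w} A]

/-- all maps from `P⟦a⟧`, `a < t`, to `Y` vanish -/
def V (P : DerivedCategory A) (t : ℤ) (Y : DerivedCategory A) : Prop :=
  ∀ a : ℤ, a < t → ∀ f : P⟦a⟧ ⟶ Y, f = 0

structure Setup (P : DerivedCategory A) (G : DerivedCategory A → Prop) (n : ℤ) : Prop where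
  iso : ∀ {X Y : DerivedCategory A}, (X ≅ Y) → G X → G Y
  shift : ∀ (X : DerivedCategory A) (a : ℤ), G X → G (X⟦a⟧)
  cone : ∀ (s : ℤ) {Y Z : DerivedCategory A} (g : P⟦s⟧ ⟶ Y) (h : Y ⟶ Z) (w : Z ⟶ P⟦s⟧⟦(1 : ℤ)⟧),
    Triangle.mk g h w ∈ distTriang (DerivedCategory A) → G Y → G Z
  fg : ∀ (Y : DerivedCategory A) (s : ℤ), G Y → ∃ (m : ℕ) (g : Fin m → (P⟦s⟧ ⟶ Y)), ∀ f : P⟦s⟧ ⟶ Y,
    ∃ c : Fin m → (P⟦s⟧ ⟶ P⟦s⟧), f = ∑ i, c i ≫ g i
  rigid : ∀ a b : ℤ, a < b → ∀ f : P⟦a⟧ ⟶ P⟦b⟧, f = 0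
  coh : ∀ i : ℤ, i ≠ 0 → i ≠ -n → IsZero ((homologyFunctor A i).obj P)
  le : ∀ Z : DerivedCategory A, Z.IsLE (-n-1) → ∀ f : P ⟶ Z, f = 0
  gen : ∃ l : ℤ, ∀ Y, G Y → V P 0 Y → Y.IsLE l
  hom : ∀ Y, G Y → ∀ H : A, ((homologyFunctor A 0).obj Y ≅ H) → G ((singleFunctor A 0).obj H)

lemma isZero_homology_shift (X : DerivedCategory A) (i a : ℤ)
    (h : IsZero ((homologyFunctor A (i + a)).obj X)) :
    IsZero ((homologyFunctor A i).obj (X⟦a⟧)) := by
  have e : (homologyFunctor A i).obj (X⟦a⟧) ≅ (homologyFunctor A (i + a)).obj X :=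
    (((homologyFunctor A 0).shiftIso a i (i + a) (by lia)).app X)
  exact h.of_iso e

/-- exactness in the middle -/
lemma isZero_mid (T : Triangle (DerivedCategory A)) (hT : T ∈ distTriang _) (i : ℤ)
    (h1 : IsZero ((homologyFunctor A i).obj T.obj₁)) (h3 : IsZero ((homologyFunctor A i).obj T.obj₃)) :
    IsZero ((homologyFunctor A i).obj T.obj₂) := by
  have h := HomologySequence.exact₂ T hT i
  exact h.isZero_of_both_zeros (h1.eq_of_src _ _) (h3.eq_of_tgt _ _)

lemma isZero_third (T : Triangle (DerivedCategory A)) (hT : T ∈ distTriang _) (i j : ℤ) (hij : i + 1 = j)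
    (h2 : IsZero ((homologyFunctor A i).obj T.obj₂)) (h1 : IsZero ((homologyFunctor A j).obj T.obj₁)) :
    IsZero ((homologyFunctor A i).obj T.obj₃) := by
  have h := HomologySequence.exact₃ T hT i j hij
  exact h.isZero_of_both_zeros (h2.eq_of_src _ _) (h1.eq_of_tgt _ _)

lemma isZero_first (T : Triangle (DerivedCategory A)) (hT : T ∈ distTriang _) (i j : ℤ) (hij : i + 1 = j)
    (h3 : IsZero ((homologyFunctor A i).obj T.obj₃)) (h2 : IsZero ((homologyFunctor A j).obj T.obj₂)) :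
    IsZero ((homologyFunctor A j).obj T.obj₁) := by
  have h := HomologySequence.exact₁ T hT i j hij
  exact h.isZero_of_both_zeros (h3.eq_of_src _ _) (h2.eq_of_tgt _ _)

variable {P : DerivedCategory A} {G : DerivedCategory A → Prop} {n : ℤ}

lemma le_shift (S : Setup P G n) (a : ℤ) (Z : DerivedCategory A) (hZ : Z.IsLE (-n - 1 - a))
    (f : P⟦a⟧ ⟶ Z) : f = 0 := by
  have h1 := TStructure.t.isLE_shift Z (-n - 1 - a) (-a) (-n - 1) (by lia)
  have h2 := S.le (Z⟦-a⟧) h1 ((shiftFunctorCompIsoId (DerivedCategory A) a (-a) (by lia)).inv.app P ≫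
    (shiftFunctor (DerivedCategory A) (-a)).map f)
  have h3 : (shiftFunctor (DerivedCategory A) (-a)).map f = 0 := by
    rw [← cancel_epi ((shiftFunctorCompIsoId (DerivedCategory A) a (-a) (by lia)).inv.app P), h2, comp_zero]
  exact (shiftFunctor (DerivedCategory A) (-a)).map_injective (by rw [h3, Functor.map_zero])

/-- one step -/
lemma kill (S : Setup P G n) (t : ℤ) (Y : DerivedCategory A) (hY : G Y) (hV : V P t Y) :
    ∃ (Y' : DerivedCategory A) (u : Y ⟶ Y'), G Y' ∧ V P (t + 1) Y' ∧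
      (∀ Z : DerivedCategory A, (∀ f : P⟦t⟧ ⟶ Z, f = 0) → ∀ a : Y ⟶ Z, ∃ b : Y' ⟶ Z, u ≫ b = a) ∧
      (∀ i : ℤ, IsZero ((homologyFunctor A (i + 1 + t)).obj P) →
        IsZero ((homologyFunctor A i).obj Y) → IsZero ((homologyFunctor A i).obj Y')) ∧
      (∀ i : ℤ, IsZero ((homologyFunctor A (i + t)).obj P) →
        IsZero ((homologyFunctor A i).obj Y') → IsZero ((homologyFunctor A i).obj Y)) := by
  obtain ⟨m, g, hg⟩ := S.fg Y t hY
  induction m generalizing Y with
  | zero =>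
    refine ⟨Y, 𝟙 Y, hY, ?_, fun Z _ a => ⟨a, id_comp _⟩, fun i _ h => h, fun i _ h => h⟩
    intro a ha f
    rcases (show a < t ∨ a = t by lia) with h | h
    · exact hV a h f
    · subst h
      obtain ⟨c, hc⟩ := hg f
      simpa using hc
  | succ m ih =>
    obtain ⟨Y1, u, w, hT⟩ := distinguished_cocone_triangle (g (Fin.last m))
    have hGY1 : G Y1 := S.cone t _ u w hT hY
    have hlift : ∀ a : ℤ, a < t + 1 → ∀ f : P⟦a⟧ ⟶ Y1, ∃ f' : P⟦a⟧ ⟶ Y, f = f' ≫ u := by
      intro a ha f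
      have h0 : f ≫ w = 0 := by
        have h1 := S.rigid a (t + 1) ha
          ((f ≫ w) ≫ (shiftFunctorAdd' (DerivedCategory A) t 1 (t + 1) rfl).inv.app P)
        rw [← cancel_mono ((shiftFunctorAdd' (DerivedCategory A) t 1 (t + 1) rfl).inv.app P), h1, zero_comp]
      exact Triangle.coyoneda_exact₃ _ hT f h0
    have hV1 : V P t Y1 := by
      intro a ha f
      obtain ⟨f', rfl⟩ := hlift a (by lia) f
      rw [hV a ha f', zero_comp]
    have hgu : g (Fin.last m) ≫ u = 0 := comp_distTriang_mor_zero₁₂ _ hT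
    obtain ⟨Y', u', h1, h2, h3, h4, h5⟩ := ih Y1 hGY1 hV1 (fun i => g i.castSucc ≫ u) (by
      intro f
      obtain ⟨f', rfl⟩ := hlift t (by lia) f
      obtain ⟨c, hc⟩ := hg f'
      refine ⟨fun i => c i.castSucc, ?_⟩
      rw [hc, Fin.sum_univ_castSucc, Preadditive.add_comp, Preadditive.sum_comp, assoc, hgu, comp_zero,
        add_zero]
      simp)
    refine ⟨Y', u ≫ u', h1, h2, ?_, ?_, ?_⟩
    · intro Z hZ a
      obtain ⟨b, hb⟩ := Triangle.yoneda_exact₂ _ hT a (hZ _)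
      obtain ⟨b', hb'⟩ := h3 Z hZ b
      refine ⟨b', ?_⟩
      rw [assoc, hb']
      exact hb.symm
    · intro i hP hi
      exact h4 i hP (isZero_third _ hT i (i + 1) rfl hi (isZero_homology_shift P (i + 1) t hP))
    · intro i hP hi
      exact isZero_mid _ hT i (isZero_homology_shift P i t hP) (h5 i hP hi)

lemma le_zero (S : Setup P G n) (hn : 1 ≤ n) : ∀ Y, G Y → V P 0 Y → Y.IsLE 0 := by
  obtain ⟨l, hl⟩ := S.gen
  have key : ∀ l : ℕ, (∀ Y, G Y → V P 0 Y → Y.IsLE (l : ℤ)) → ∀ Y, G Y → V P 0 Y → Y.IsLE 0 := by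
    intro l
    induction l with
    | zero => intro h; exact_mod_cast h
    | succ l ih =>
      intro h
      refine ih fun Y hY hV => ?_
      obtain ⟨Y', u, h1, h2, h3, h4, h5⟩ := kill S 0 Y hY hV
      have hL : (Y'⟦(-1 : ℤ)⟧).IsLE ((l + 1 : ℕ) : ℤ) := by
        refine h _ (S.shift _ _ h1) ?_
        intro a ha f
        -- f : P⟦a⟧ ⟶ Y'⟦-1⟧
        have h6 := h2 (a + 1) (by lia) ((shiftFunctorAdd' (DerivedCategory A) a 1 (a + 1) rfl).hom.app P ≫
          (shiftFunctor (DerivedCategory A) (1 : ℤ)).map f ≫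
          (shiftFunctorCompIsoId (DerivedCategory A) (-1 : ℤ) 1 (by lia)).hom.app Y')
        have h7 : (shiftFunctor (DerivedCategory A) (1 : ℤ)).map f = 0 := by
          rw [← cancel_epi ((shiftFunctorAdd' (DerivedCategory A) a 1 (a + 1) rfl).hom.app P),
            ← cancel_mono ((shiftFunctorCompIsoId (DerivedCategory A) (-1 : ℤ) 1 (by lia)).hom.app Y'),
            assoc, h6, comp_zero, zero_comp]
        exact (shiftFunctor (DerivedCategory A) (1 : ℤ)).map_injective (by rw [h7, Functor.map_zero])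
      have hL' : Y'.IsLE (l : ℤ) := TStructure.t.isLE_of_shift Y' (l : ℤ) (-1) ((l + 1 : ℕ) : ℤ) (by push_cast; lia)
      rw [DerivedCategory.isLE_iff]
      intro i hi
      by_cases hi' : i = l + 1
      · subst hi'
        refine h5 _ (S.coh _ (by lia) (by lia)) (isZero_of_isLE Y' l _ (by lia))
      · have := h Y hY hV
        exact isZero_of_isLE Y ((l + 1 : ℕ) : ℤ) _ (by push_cast; lia)
  rcases Int.le_total l 0 with h | h
  · intro Y hY hV
    have := hl Y hY hV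
    exact TStructure.t.isLE_of_le Y l 0 h
  · obtain ⟨l', rfl⟩ := Int.eq_ofNat_of_zero_le h
    exact key l' hl

/-- approximation of `Y` with `V P (-s) Y` -/
lemma approx (S : Setup P G n) (s : ℕ) : ∀ (Y : DerivedCategory A), G Y → V P (-s) Y →
    ∃ (U : DerivedCategory A) (u : Y ⟶ U), G U ∧ V P 0 U ∧
      (∀ Z : DerivedCategory A, V P 0 Z → ∀ a : Y ⟶ Z, ∃ b : U ⟶ Z, u ≫ b = a) ∧
      (∀ i : ℤ, (∀ t : ℤ, -s ≤ t → t ≤ -1 → IsZero ((homologyFunctor A (i + 1 + t)).obj P)) →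
        IsZero ((homologyFunctor A i).obj Y) → IsZero ((homologyFunctor A i).obj U)) := by
  induction s with
  | zero =>
    intro Y hY hV
    exact ⟨Y, 𝟙 Y, hY, by simpa using hV, fun Z _ a => ⟨a, id_comp _⟩, fun i _ h => h⟩
  | succ s ih =>
    intro Y hY hV
    obtain ⟨Y', u, h1, h2, h3, h4, -⟩ := kill S _ Y hY hV
    obtain ⟨U, u', g1, g2, g3, g4⟩ := ih Y' h1 (by
      have e : -((s + 1 : ℕ) : ℤ) + 1 = -(s : ℤ) := by push_cast; ring
      rwa [e] at h2)
    refine ⟨U, u ≫ u', g1, g2, ?_, ?_⟩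
    · intro Z hZ a
      obtain ⟨b, hb⟩ := h3 Z (hZ _ (by push_cast; lia)) a
      obtain ⟨b', hb'⟩ := g3 Z hZ b
      exact ⟨b', by rw [assoc, hb', hb]⟩
    · intro i hi hY0
      refine g4 i (fun t ht1 ht2 => hi t (by push_cast; lia) ht2) (h4 i (hi _ le_rfl (by push_cast; lia)) hY0)

theorem main (S : Setup P G n) (hn : 1 ≤ n) (r : ℕ) : ∀ (C : A), G ((singleFunctor A 0).obj C) →
    V P (-r) ((singleFunctor A 0).obj C) → (r : ℤ) ≤ n →
    ∃ (H : A) (f : C ⟶ H), G ((singleFunctor A 0).obj H) ∧ V P 0 ((singleFunctor A 0).obj H) ∧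
      ∀ N : A, V P 0 ((singleFunctor A 0).obj N) → ∀ g : C ⟶ N, ∃ h : H ⟶ N, f ≫ h = g := by
  induction r with
  | zero =>
    intro C hC hV _
    exact ⟨C, 𝟙 C, hC, by simpa using hV, fun N _ g => ⟨g, id_comp _⟩⟩
  | succ r ih =>
    intro C hC hV hrn
    obtain ⟨U, u, h1, h2, h3, h4⟩ := approx S (r + 1) _ hC hV
    have hU0 : U.IsLE 0 := le_zero S hn U h1 h2
    obtain ⟨W, Z, hW, hZ, α, β, γ, hT⟩ := TStructure.t.exists_triangle U (-1) 0 (by lia)
    have hW1 : W.IsLE (-1) := ⟨hW⟩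
    have hZ1 : Z.IsGE 0 := ⟨hZ⟩
    have hZ0 : Z.IsLE 0 := by
      rw [DerivedCategory.isLE_iff]
      intro i hi
      exact isZero_third _ hT i (i + 1) rfl (isZero_of_isLE U 0 i hi) (isZero_of_isLE W (-1) _ (by lia))
    obtain ⟨H, ⟨e⟩⟩ := exists_iso_singleFunctor_obj_of_isGE_of_isLE Z 0
    have hGH : G ((singleFunctor A 0).obj H) := by
      apply S.hom U h1 H
      have hiso : IsIso ((homologyFunctor A 0).map β) := by
        have hm : Mono ((homologyFunctor A 0).map β) := by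
          have := (HomologySequence.mono_homologyMap_mor₂_iff _ hT 0).2
            ((isZero_of_isLE W (-1) 0 (by lia)).eq_of_src _ _)
          exact this
        have he : Epi ((homologyFunctor A 0).map β) := by
          have := (HomologySequence.epi_homologyMap_mor₂_iff _ hT 0 1 (by lia)).2
            ((isZero_of_isLE W (-1) 1 (by lia)).eq_of_tgt _ _)
          exact this
        exact isIso_of_mono_of_epi _
      exact asIso ((homologyFunctor A 0).map β) ≪≫ (homologyFunctor A 0).mapIso e ≪≫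
        (singleFunctorCompHomologyFunctorIso A 0).app H
    have hWle : W.IsLE (r - n) := by
      rw [DerivedCategory.isLE_iff]
      intro i hi
      by_cases hi' : 0 ≤ i
      · exact isZero_of_isLE W (-1) i (by lia)
      · refine isZero_first _ hT (i - 1) i (by lia) (isZero_of_isGE Z 0 (i - 1) (by lia)) (h4 i ?_ ?_)
        · intro t ht1 ht2
          push_cast at ht1
          exact S.coh _ (by lia) (by lia)
        · exact isZero_of_isGE _ 0 i (by lia)
    have hVH : V P (-r) ((singleFunctor A 0).obj H) := by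
      intro a ha f
      have h0 : (f ≫ e.inv) ≫ γ = 0 := by
        have hW2 : (W⟦(1 : ℤ)⟧).IsLE (-n - 1 - a) := by
          have := TStructure.t.isLE_shift W (r - n) 1 (r - n - 1) (by lia)
          exact TStructure.t.isLE_of_le _ (r - n - 1) _ (by lia)
        exact le_shift S a _ hW2 _
      obtain ⟨f', hf'⟩ : ∃ f' : P⟦a⟧ ⟶ U, f ≫ e.inv = f' ≫ β :=
        Triangle.coyoneda_exact₃ _ hT (f ≫ e.inv) h0
      have hf0 : f' = 0 := h2 a (by lia) f'
      rw [hf0, zero_comp] at hf'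
      rw [← cancel_mono e.inv, hf', zero_comp]
    obtain ⟨H', f', k1, k2, k3⟩ := ih H hGH hVH (by push_cast at hrn; lia)
    refine ⟨H', (singleFunctor A 0).preimage (u ≫ β ≫ e.hom) ≫ f', k1, k2, ?_⟩
    intro N hN g
    obtain ⟨b, hb⟩ := h3 _ hN ((singleFunctor A 0).map g)
    have hαb : α ≫ b = 0 := TStructure.t.zero_of_isLE_of_isGE _ (-1) 0 (by lia) hW1 inferInstance
    obtain ⟨b', hb'⟩ : ∃ b' : Z ⟶ (singleFunctor A 0).obj N, b = β ≫ b' :=
      Triangle.yoneda_exact₂ _ hT b hαb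
    obtain ⟨h, hh⟩ := k3 N hN ((singleFunctor A 0).preimage (e.inv ≫ b'))
    refine ⟨h, ?_⟩
    rw [assoc, hh]
    apply (singleFunctor A 0).map_injective
    rw [Functor.map_comp, Functor.map_preimage, Functor.map_preimage, assoc, assoc, e.hom_inv_id_assoc, ← hb, ← hb']

end Pool.Agent.H381.TauN
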