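import Mathlib

open CategoryTheory Category Limits Pretriangulated Triangulated DerivedCategory

set_option autoImplicit false

namespace Pool.Agent.H381.TauN

universe w v u

section
variable {A : Type u} [Category.{v} A] [Abelian A] [HasDerivedCategory.{w} A]

lemma Q_map_surj (K L : CochainComplex A ℤ) [K.IsKProjective] (f : Q.obj K ⟶ Q.obj L) :
    ∃ φ : K ⟶ L, Q.map φ = f := by
  obtain ⟨g, hg⟩ := (CochainComplex.IsKProjective.Qh_map_bijective K
    ((HomotopyCategory.quotient _ _).obj L)).surjective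
    ((quotientCompQhIso A).hom.app K ≫ f ≫ (quotientCompQhIso A).inv.app L)
  obtain ⟨φ, rfl⟩ := (HomotopyCategory.quotient _ _).map_surjective g
  refine ⟨φ, ?_⟩
  rw [← cancel_mono ((quotientCompQhIso A).inv.app L), quotientCompQhIso_inv_naturality, hg]
  simp

lemma Q_map_zero (K L : CochainComplex A ℤ) [K.IsKProjective] (φ : K ⟶ L) (h : Q.map φ = 0) :
    Nonempty (Homotopy φ 0) := by
  have h1 : Qh.map ((HomotopyCategory.quotient _ _).map φ) = Qh.map 0 := by
    have h2 := quotientCompQhIso_hom_naturality φ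
    rw [h, comp_zero] at h2
    rw [Functor.map_zero, ← cancel_mono ((quotientCompQhIso A).hom.app L), h2, zero_comp]
  have h3 := (CochainComplex.IsKProjective.Qh_map_bijective K
    ((HomotopyCategory.quotient _ _).obj L)).injective h1
  rw [← Functor.map_zero (HomotopyCategory.quotient _ _)] at h3
  exact ⟨HomotopyCategory.homotopyOfEq _ _ h3⟩

end

section
variable {k Λ : Type u} [CommRing k] [IsArtinianRing k] [Ring Λ] [Algebra k Λ] [Module.Finite k Λ]

/-- multiplication by a central scalar -/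
noncomputable def central (k : Type u) [CommRing k] [Algebra k Λ] (K : CochainComplex (ModuleCat.{u} Λ) ℤ) (c : k) : K ⟶ K where
  f i := ModuleCat.ofHom
    { toFun := fun x => algebraMap k Λ c • x
      map_add' := fun x y => smul_add _ _ _
      map_smul' := fun a x => by
        simp only [RingHom.id_apply, smul_smul]
        rw [Algebra.commutes] }
  comm' i j _ := by
    ext x
    simp

omit [IsArtinianRing k] [Module.Finite k Λ] in
@[simp] lemma central_apply (K : CochainComplex (ModuleCat.{u} Λ) ℤ) (c : k) (i : ℤ) (x : K.X i) :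
    ((central k K c).f i).hom x = algebraMap k Λ c • x := rfl

include k in
lemma chain_fg (K L : CochainComplex (ModuleCat.{u} Λ) ℤ) (hK : ∀ i, Module.Finite Λ (K.X i))
    (hL : ∀ i, Module.Finite Λ (L.X i)) (F : Finset ℤ) (hF : ∀ i, i ∉ F → Subsingleton (K.X i)) :
    ∃ (m : ℕ) (g : Fin m → (K ⟶ L)), ∀ f : K ⟶ L, ∃ c : Fin m → (K ⟶ K), f = ∑ i, c i ≫ g i := by
  classical
  choose r x hx using fun i => (hK i).exists_fin
  let _ : ∀ i, Module k (L.X i) := fun i => Module.compHom (L.X i) (algebraMap k Λ)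
  have hsm : ∀ (i : ℤ) (c : k) (y : L.X i), c • y = algebraMap k Λ c • y := fun i c y => rfl
  have : ∀ i, IsScalarTower k Λ (L.X i) := fun i => ⟨fun c a y => by
    rw [hsm, smul_smul, Algebra.smul_def]⟩
  have : ∀ i, Module.Finite k (L.X i) := fun i => Module.Finite.trans Λ _
  let B : Type u := (p : Σ i : F, Fin (r i)) → L.X p.1
  let Θ : (K ⟶ L) → B := fun φ p => (φ.f p.1).hom (x p.1 p.2)
  have hΘinj : Function.Injective Θ := by
    intro φ ψ h
    ext i y
    by_cases hi : i ∈ F
    · have h1 : (φ.f i).hom = (ψ.f i).hom := by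
        apply LinearMap.ext_on_range (hx i)
        intro j
        exact congrFun h ⟨⟨i, hi⟩, j⟩
      exact LinearMap.congr_fun h1 y
    · have := hF i hi
      rw [Subsingleton.elim y 0, map_zero, map_zero]
  have hΘadd : ∀ φ ψ, Θ (φ + ψ) = Θ φ + Θ ψ := by
    intro φ ψ
    funext p
    rfl
  have hΘsmul : ∀ (c : k) φ, Θ (central k K c ≫ φ) = c • Θ φ := by
    intro c φ
    funext p
    change (φ.f p.1).hom (algebraMap k Λ c • x p.1 p.2) = algebraMap k Λ c • (φ.f p.1).hom (x p.1 p.2)
    rw [map_smul]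
  let S : Submodule k B :=
    { carrier := Set.range Θ
      add_mem' := by
        rintro _ _ ⟨φ, rfl⟩ ⟨ψ, rfl⟩
        exact ⟨φ + ψ, hΘadd φ ψ⟩
      zero_mem' := ⟨0, by funext p; rfl⟩
      smul_mem' := by
        rintro c _ ⟨φ, rfl⟩
        exact ⟨central k K c ≫ φ, hΘsmul c φ⟩ }
  have : IsNoetherian k B := inferInstance
  obtain ⟨m, b, hb⟩ := Submodule.fg_iff_exists_fin_generating_family.1 (IsNoetherian.noetherian S)
  have hbS : ∀ i, b i ∈ S := fun i => hb ▸ Submodule.subset_span ⟨i, rfl⟩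
  choose g hg using hbS
  refine ⟨m, g, fun f => ?_⟩
  have hf : Θ f ∈ Submodule.span k (Set.range b) := by rw [hb]; exact ⟨f, rfl⟩
  obtain ⟨c, hc⟩ := (Submodule.mem_span_range_iff_exists_fun k).1 hf
  refine ⟨fun i => central k K (c i), hΘinj ?_⟩
  let ΘA : (K ⟶ L) →+ B := AddMonoidHom.mk' Θ hΘadd
  have h1 : Θ (∑ i, central k K (c i) ≫ g i) = ∑ i, Θ (central k K (c i) ≫ g i) := map_sum ΘA _ _
  rw [h1, ← hc]
  refine Finset.sum_congr rfl fun i _ => ?_
  rw [hΘsmul, hg]

end

end Pool.Agent.H381.TauN
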