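import Pool.Agent.H381.TauN.A
import Pool.Agent.H381.TauN.B

open CategoryTheory Category Limits Pretriangulated Triangulated DerivedCategory

set_option autoImplicit false

namespace Pool.Agent.H381.TauN

universe u

variable {k Λ : Type u} [CommRing k] [IsArtinianRing k] [Ring Λ] [Algebra k Λ] [Module.Finite k Λ]

attribute [local instance] HasDerivedCategory.standard

/-- objects represented by complexes with finitely generated terms -/
def FGC (Y : DerivedCategory (ModuleCat.{u} Λ)) : Prop :=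
  ∃ L : CochainComplex (ModuleCat.{u} Λ) ℤ, (∀ i, Module.Finite Λ (L.X i)) ∧ Nonempty (Q.obj L ≅ Y)

omit [Algebra k Λ] in
lemma FGC_cone (K : CochainComplex (ModuleCat.{u} Λ) ℤ) [K.IsKProjective]
    (hK : ∀ i, Module.Finite Λ (K.X i)) (s : ℤ) {Y Z : DerivedCategory (ModuleCat.{u} Λ)}
    (g : (Q.obj K)⟦s⟧ ⟶ Y) (h : Y ⟶ Z) (w : Z ⟶ (Q.obj K)⟦s⟧⟦(1 : ℤ)⟧)
    (hT : Triangle.mk g h w ∈ distTriang (DerivedCategory (ModuleCat.{u} Λ))) (hY : FGC Y) : FGC Z := by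
  obtain ⟨L, hL, ⟨e⟩⟩ := hY
  obtain ⟨φ, hφ⟩ := Q_map_surj (K⟦s⟧) L ((Q.commShiftIso s).hom.app K ≫ g ≫ e.inv)
  refine ⟨CochainComplex.mappingCone φ, ?_, ⟨?_⟩⟩
  · intro i
    have h1 : Module.Finite Λ ((K⟦s⟧).X (i + 1)) := hK _
    have h2 := hL i
    have hid := CochainComplex.mappingCone.id_X φ i (i + 1) rfl
    let F : ((K⟦s⟧).X (i + 1)) × (L.X i) →ₗ[Λ] (CochainComplex.mappingCone φ).X i :=
      LinearMap.coprod ((CochainComplex.mappingCone.inl φ).v (i + 1) i (by lia)).hom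
        ((CochainComplex.mappingCone.inr φ).f i).hom
    apply Module.Finite.of_surjective F
    intro x
    refine ⟨(((CochainComplex.mappingCone.fst φ).1.v i (i + 1) (by lia)).hom x,
      ((CochainComplex.mappingCone.snd φ).v i i (by lia)).hom x), ?_⟩
    have h3 := congrArg (fun f => f.hom x) hid
    exact h3
  · have hT1 := mappingCone_triangle_distinguished φ
    exact Triangle.π₃.mapIso (isoTriangleOfIso₁₂ _ _ hT1 hT ((Q.commShiftIso s).app K) e (by
      change Q.map φ ≫ e.hom = _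
      rw [hφ, assoc, assoc, e.inv_hom_id, comp_id]
      rfl))

include k in
lemma FGC_fg (K : CochainComplex (ModuleCat.{u} Λ) ℤ) [K.IsKProjective]
    (hK : ∀ i, Module.Finite Λ (K.X i)) (F : Finset ℤ) (hF : ∀ i, i ∉ F → Subsingleton (K.X i))
    (Y : DerivedCategory (ModuleCat.{u} Λ)) (s : ℤ) (hY : FGC Y) :
    ∃ (m : ℕ) (g : Fin m → ((Q.obj K)⟦s⟧ ⟶ Y)), ∀ f : (Q.obj K)⟦s⟧ ⟶ Y,
      ∃ c : Fin m → ((Q.obj K)⟦s⟧ ⟶ (Q.obj K)⟦s⟧), f = ∑ i, c i ≫ g i := by
  classical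
  obtain ⟨L, hL, ⟨e⟩⟩ := hY
  obtain ⟨m, g, hg⟩ := chain_fg (k := k) (K⟦s⟧) L (fun i => hK _) hL (F.image (fun j => j - s)) (by
    intro i hi
    apply hF (i + s)
    intro h
    exact hi (Finset.mem_image.2 ⟨i + s, h, by ring⟩))
  let q := (Q.commShiftIso (C := CochainComplex (ModuleCat.{u} Λ) ℤ) (D := DerivedCategory (ModuleCat.{u} Λ)) s).app K
  refine ⟨m, fun i => q.inv ≫ Q.map (g i) ≫ e.hom, fun f => ?_⟩
  obtain ⟨φ, hφ⟩ := Q_map_surj (K⟦s⟧) L (q.hom ≫ f ≫ e.inv)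
  obtain ⟨c, hc⟩ := hg φ
  refine ⟨fun i => q.inv ≫ Q.map (c i) ≫ q.hom, ?_⟩
  have h1 : f = q.inv ≫ Q.map φ ≫ e.hom := by rw [hφ]; simp
  rw [h1, hc, Functor.map_sum, Preadditive.sum_comp, Preadditive.comp_sum]
  refine Finset.sum_congr rfl fun i _ => ?_
  simp

omit [Algebra k Λ] in
lemma FGC_shift (X : DerivedCategory (ModuleCat.{u} Λ)) (a : ℤ) (h : FGC X) : FGC (X⟦a⟧) := by
  obtain ⟨L, hL, ⟨e⟩⟩ := h
  exact ⟨L⟦a⟧, fun i => hL _, ⟨(Q.commShiftIso a).app L ≪≫ (shiftFunctor _ a).mapIso e⟩⟩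

omit [Algebra k Λ] in
lemma FGC_single (H : ModuleCat.{u} Λ) (hH : Module.Finite Λ H) :
    FGC ((singleFunctor (ModuleCat.{u} Λ) 0).obj H) := by
  refine ⟨(HomologicalComplex.single _ (ComplexShape.up ℤ) 0).obj H, ?_,
    ⟨(singleFunctorIsoCompQ _ 0).symm.app H⟩⟩
  intro i
  by_cases hi : i = 0
  · subst hi
    exact Module.Finite.equiv (HomologicalComplex.singleObjXSelf (ComplexShape.up ℤ) 0 H).symm.toLinearEquiv
  · have h1 := HomologicalComplex.isZero_single_obj_X (ComplexShape.up ℤ) 0 H i hi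
    have := ModuleCat.subsingleton_of_isZero h1
    infer_instance

include k in
lemma FGC_hom (Y : DerivedCategory (ModuleCat.{u} Λ)) (hY : FGC Y) (H : ModuleCat.{u} Λ)
    (e : (homologyFunctor (ModuleCat.{u} Λ) 0).obj Y ≅ H) :
    FGC ((singleFunctor (ModuleCat.{u} Λ) 0).obj H) := by
  obtain ⟨L, hL, ⟨e'⟩⟩ := hY
  have h1 : IsNoetherian k Λ := isNoetherian_of_isNoetherianRing_of_finite k Λ
  have : IsNoetherianRing Λ := isNoetherian_of_tower k h1
  have e2 : L.homology 0 ≅ H := ((homologyFunctorFactors (ModuleCat.{u} Λ) 0).app L).symm ≪≫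
    (homologyFunctor (ModuleCat.{u} Λ) 0).mapIso e' ≪≫ e
  have hL0 := hL 0
  have h2 : Module.Finite Λ (L.cycles 0) :=
    Module.Finite.of_injective (L.iCycles 0).hom ((ModuleCat.mono_iff_injective _).1 inferInstance)
  have h3 : Module.Finite Λ (L.homology 0) :=
    Module.Finite.of_surjective (L.homologyπ 0).hom ((ModuleCat.epi_iff_surjective _).1 inferInstance)
  exact FGC_single H (Module.Finite.equiv e2.toLinearEquiv)

omit [Algebra k Λ] in
lemma coh_zero (K : CochainComplex (ModuleCat.{u} Λ) ℤ) (i : ℤ) (h : K.ExactAt i) :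
    IsZero ((homologyFunctor (ModuleCat.{u} Λ) i).obj (Q.obj K)) :=
  (((homologyFunctorFactors (ModuleCat.{u} Λ) i).app K).isZero_iff).2 h.isZero_homology

omit [Algebra k Λ] in
lemma le_zero' (K : CochainComplex (ModuleCat.{u} Λ) ℤ) [K.IsKProjective] (n : ℤ)
    (hK : ∀ i : ℤ, i < -n → Subsingleton (K.X i)) (Z : DerivedCategory (ModuleCat.{u} Λ))
    (hZ : Z.IsLE (-n - 1)) (f : Q.obj K ⟶ Z) : f = 0 := by
  obtain ⟨L, hL, ⟨e⟩⟩ := exists_iso_Q_obj_of_isLE Z (-n - 1)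
  obtain ⟨φ, hφ⟩ := Q_map_surj K L (f ≫ e.hom)
  have h0 : φ = 0 := by
    ext i x
    by_cases hi : i < -n
    · have := hK i hi
      rw [Subsingleton.elim x 0, map_zero, map_zero]
    · have := ModuleCat.subsingleton_of_isZero (L.isZero_of_isStrictlyLE (-n - 1) i (by lia))
      exact Subsingleton.elim _ _
  rw [← cancel_mono e.hom, ← hφ, h0, Functor.map_zero, zero_comp]

omit [Algebra k Λ] in
lemma rigid (K : CochainComplex (ModuleCat.{u} Λ) ℤ) [K.IsKProjective]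
    (hrig : ∀ i : ℤ, 0 < i → ∀ f : (HomotopyCategory.quotient (ModuleCat.{u} Λ) (ComplexShape.up ℤ)).obj K ⟶
      ((HomotopyCategory.quotient (ModuleCat.{u} Λ) (ComplexShape.up ℤ)).obj K)⟦i⟧, f = 0) :
    ∀ a b : ℤ, a < b → ∀ f : (Q.obj K)⟦a⟧ ⟶ (Q.obj K)⟦b⟧, f = 0 := by
  have step1 : ∀ i : ℤ, 0 < i → ∀ f : Q.obj K ⟶ (Q.obj K)⟦i⟧, f = 0 := by
    intro i hi f
    let q := (Q.commShiftIso (C := CochainComplex (ModuleCat.{u} Λ) ℤ) (D := DerivedCategory (ModuleCat.{u} Λ)) i).app K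
    obtain ⟨φ, hφ⟩ := Q_map_surj K (K⟦i⟧) (f ≫ q.inv)
    have h1 := hrig i hi ((HomotopyCategory.quotient (ModuleCat.{u} Λ) (ComplexShape.up ℤ)).map φ ≫
      ((HomotopyCategory.quotient (ModuleCat.{u} Λ) (ComplexShape.up ℤ)).commShiftIso i).hom.app K)
    have h2 : (HomotopyCategory.quotient (ModuleCat.{u} Λ) (ComplexShape.up ℤ)).map φ = 0 := by
      rw [← cancel_mono (((HomotopyCategory.quotient (ModuleCat.{u} Λ) (ComplexShape.up ℤ)).commShiftIso i).hom.app K),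
        h1, zero_comp]
    have h3 : Q.map φ = 0 := by
      rw [← cancel_epi ((quotientCompQhIso _).hom.app K), ← quotientCompQhIso_hom_naturality, h2,
        Functor.map_zero, zero_comp, comp_zero]
    rw [← cancel_mono q.inv, ← hφ, h3, zero_comp]
  intro a b hab f
  have h1 := step1 (b - a) (by lia) ((shiftFunctorCompIsoId (DerivedCategory (ModuleCat.{u} Λ)) a (-a) (by lia)).inv.app (Q.obj K) ≫
    (shiftFunctor (DerivedCategory (ModuleCat.{u} Λ)) (-a)).map f ≫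
    (shiftFunctorAdd' (DerivedCategory (ModuleCat.{u} Λ)) b (-a) (b - a) (by ring)).inv.app (Q.obj K))
  have h2 : (shiftFunctor (DerivedCategory (ModuleCat.{u} Λ)) (-a)).map f = 0 := by
    rw [← cancel_epi ((shiftFunctorCompIsoId (DerivedCategory (ModuleCat.{u} Λ)) a (-a) (by lia)).inv.app (Q.obj K)),
      ← cancel_mono ((shiftFunctorAdd' (DerivedCategory (ModuleCat.{u} Λ)) b (-a) (b - a) (by ring)).inv.app (Q.obj K)),
      assoc, h1, comp_zero, zero_comp]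
  exact (shiftFunctor (DerivedCategory (ModuleCat.{u} Λ)) (-a)).map_injective (by rw [h2, Functor.map_zero])

end Pool.Agent.H381.TauN
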