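import Pool.Agent.H381.TauN.C

open CategoryTheory Category Limits Pretriangulated Triangulated DerivedCategory ZeroObject

set_option autoImplicit false

namespace Pool.Agent.H381.TauN

universe u

variable {Λ : Type u} [Ring Λ]

attribute [local instance] HasDerivedCategory.standard

/-- bounded vanishing against `U` -/
def Bd (K : CochainComplex (ModuleCat.{u} Λ) ℤ) :
    ObjectProperty (HomotopyCategory (ModuleCat.{u} Λ) (ComplexShape.up ℤ)) :=
  fun W => ∃ l : ℤ, ∀ Y : DerivedCategory (ModuleCat.{u} Λ), FGC Y → V (Q.obj K) 0 Y →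
    ∀ j : ℤ, l < j → ∀ f : Qh.obj W ⟶ Y⟦j⟧, f = 0

instance (K : CochainComplex (ModuleCat.{u} Λ) ℤ) : (Bd K).IsClosedUnderIsomorphisms where
  of_iso := by
    rintro X Y e ⟨l, hl⟩
    refine ⟨l, fun Z h1 h2 j hj f => ?_⟩
    rw [← cancel_epi (Qh.map e.hom), hl Z h1 h2 j hj (Qh.map e.hom ≫ f), comp_zero]

instance (K : CochainComplex (ModuleCat.{u} Λ) ℤ) : (Bd K).IsTriangulated where
  exists_zero := ⟨0, isZero_zero _, 0, fun Y _ _ j _ f => by
    have h : IsZero (Qh.obj (0 : HomotopyCategory (ModuleCat.{u} Λ) (ComplexShape.up ℤ))) :=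
      Functor.map_isZero _ (isZero_zero _)
    exact h.eq_of_src _ _⟩
  isStableUnderShiftBy a := { 
    le_shift := by
      rintro X ⟨l, hl⟩
      refine ⟨l + a, fun Y h1 h2 j hj f => ?_⟩
      -- f : Qh.obj (X⟦a⟧) ⟶ Y⟦j⟧
      let f1 : (Qh.obj X)⟦a⟧ ⟶ Y⟦j⟧ := (Qh.commShiftIso a).inv.app X ≫ f
      have h3 := hl Y h1 h2 (j - a) (by lia)
        ((shiftFunctorCompIsoId (DerivedCategory (ModuleCat.{u} Λ)) a (-a) (by lia)).inv.app (Qh.obj X) ≫
        (shiftFunctor (DerivedCategory (ModuleCat.{u} Λ)) (-a)).map f1 ≫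
        (shiftFunctorAdd' (DerivedCategory (ModuleCat.{u} Λ)) j (-a) (j - a) (by ring)).inv.app Y)
      have h4 : (shiftFunctor (DerivedCategory (ModuleCat.{u} Λ)) (-a)).map f1 = 0 := by
        rw [← cancel_epi ((shiftFunctorCompIsoId (DerivedCategory (ModuleCat.{u} Λ)) a (-a) (by lia)).inv.app (Qh.obj X)),
          ← cancel_mono ((shiftFunctorAdd' (DerivedCategory (ModuleCat.{u} Λ)) j (-a) (j - a) (by ring)).inv.app Y),
          assoc, h3, comp_zero, zero_comp]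
      have h5 : f1 = 0 :=
        (shiftFunctor (DerivedCategory (ModuleCat.{u} Λ)) (-a)).map_injective (by rw [h4, Functor.map_zero])
      rw [← cancel_epi ((Qh.commShiftIso a).inv.app X)]
      exact h5.trans comp_zero.symm }
  ext₂' T hT h₁ h₃ := by
    refine ObjectProperty.le_isoClosure _ _ ?_
    obtain ⟨l₁, h₁⟩ := h₁
    obtain ⟨l₃, h₃⟩ := h₃
    refine ⟨max l₁ l₃, fun Y g1 g2 j hj f => ?_⟩
    have hT' := Qh.map_distinguished T hT
    obtain ⟨b, hb⟩ : ∃ b : Qh.obj T.obj₃ ⟶ Y⟦j⟧, f = Qh.map T.mor₂ ≫ b :=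
      Triangle.yoneda_exact₂ _ hT' f (h₁ Y g1 g2 j (lt_of_le_of_lt (le_max_left _ _) hj) _)
    rw [hb, h₃ Y g1 g2 j (lt_of_le_of_lt (le_max_right _ _) hj) b, comp_zero]

lemma Bd_self (K : CochainComplex (ModuleCat.{u} Λ) ℤ)
    (W : HomotopyCategory (ModuleCat.{u} Λ) (ComplexShape.up ℤ)) (m : ℕ)
    (a : Fin m → (W ⟶ (HomotopyCategory.quotient _ _).obj K))
    (b : Fin m → ((HomotopyCategory.quotient _ _).obj K ⟶ W)) (h : ∑ j, a j ≫ b j = 𝟙 W) :
    Bd K W := by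
  refine ⟨0, fun Y h1 h2 j hj f => ?_⟩
  have h3 : ∀ f' : (Q.obj K) ⟶ Y⟦j⟧, f' = 0 := by
    intro f'
    have h4 := h2 (-j) (by lia) ((shiftFunctor (DerivedCategory (ModuleCat.{u} Λ)) (-j)).map f' ≫
      (shiftFunctorCompIsoId (DerivedCategory (ModuleCat.{u} Λ)) j (-j) (by lia)).hom.app Y)
    have h5 : (shiftFunctor (DerivedCategory (ModuleCat.{u} Λ)) (-j)).map f' = 0 := by
      rw [← cancel_mono ((shiftFunctorCompIsoId (DerivedCategory (ModuleCat.{u} Λ)) j (-j) (by lia)).hom.app Y), h4,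
        zero_comp]
    exact (shiftFunctor (DerivedCategory (ModuleCat.{u} Λ)) (-j)).map_injective (by rw [h5, Functor.map_zero])
  have h6 : ∀ f' : Qh.obj ((HomotopyCategory.quotient _ _).obj K) ⟶ Y⟦j⟧, f' = 0 := by
    intro f'
    rw [← cancel_epi ((quotientCompQhIso _).inv.app K), h3 ((quotientCompQhIso _).inv.app K ≫ f')]
    simp
  rw [← id_comp f, ← CategoryTheory.Functor.map_id Qh W, ← h, Functor.map_sum, Preadditive.sum_comp]
  refine Finset.sum_eq_zero fun i _ => ?_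
  rw [Functor.map_comp, assoc, h6 (Qh.map (b i) ≫ f), comp_zero]

/-- a complex all of whose maps from `Λ` vanish in the derived category has no `H^0` -/
lemma exactAt_of_hom_zero (L : CochainComplex (ModuleCat.{u} Λ) ℤ)
    (h : ∀ f : Q.obj ((HomologicalComplex.single _ (ComplexShape.up ℤ) 0).obj (ModuleCat.of Λ Λ)) ⟶ Q.obj L,
      f = 0) : L.ExactAt 0 := by
  rw [HomologicalComplex.exactAt_iff' L (-1) 0 1 (by simp) (by simp), ShortComplex.moduleCat_exact_iff]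
  intro x hx
  change (L.d 0 1).hom x = 0 at hx
  have hproj : ∀ n : ℤ, Projective (((HomologicalComplex.single (ModuleCat.{u} Λ) (ComplexShape.up ℤ) 0).obj (ModuleCat.of Λ Λ)).X n) := by
    intro n
    by_cases hn : n = 0
    · subst hn
      have : Projective (ModuleCat.of Λ Λ) := ModuleCat.projective_of_free (Module.Free.chooseBasis Λ Λ)
      exact Projective.of_iso (HomologicalComplex.singleObjXSelf (ComplexShape.up ℤ) 0 (ModuleCat.of Λ Λ)).symm this
    · exact (HomologicalComplex.isZero_single_obj_X (ComplexShape.up ℤ) 0 _ n hn).projective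
  have : CochainComplex.IsKProjective ((HomologicalComplex.single (ModuleCat.{u} Λ) (ComplexShape.up ℤ) 0).obj (ModuleCat.of Λ Λ)) :=
    CochainComplex.isKProjective_of_projective _ 0
  let φ : ModuleCat.of Λ Λ ⟶ L.X 0 := ModuleCat.ofHom (LinearMap.toSpanSingleton Λ (L.X 0) x)
  have hφ : ∀ k : ℤ, (ComplexShape.up ℤ).Rel 0 k → φ ≫ L.d 0 k = 0 := by
    intro k hk
    obtain rfl : 1 = k := by simpa using hk
    ext
    change (L.d 0 1).hom ((1 : Λ) • x) = 0
    rw [one_smul, hx]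
  obtain ⟨H⟩ := Q_map_zero _ L (HomologicalComplex.mkHomFromSingle φ hφ) (h _)
  have h1 := H.comm 0
  rw [dNext_eq H.hom (show (ComplexShape.up ℤ).Rel 0 1 by simp),
    prevD_eq H.hom (show (ComplexShape.up ℤ).Rel (-1) 0 by simp),
    HomologicalComplex.mkHomFromSingle_f] at h1
  have h2 : φ = (HomologicalComplex.singleObjXSelf (ComplexShape.up ℤ) 0 (ModuleCat.of Λ Λ)).inv ≫
      H.hom 0 (-1) ≫ L.d (-1) 0 := by
    rw [Iso.eq_inv_comp, h1]
    simp
  refine ⟨((HomologicalComplex.singleObjXSelf (ComplexShape.up ℤ) 0 (ModuleCat.of Λ Λ)).inv ≫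
      H.hom 0 (-1)).hom (1 : Λ), ?_⟩
  have h3 : φ.hom (1 : Λ) = x := one_smul Λ x
  rw [h2] at h3
  exact h3

/-- uniform bound for the cohomology of the objects of the aisle -/
lemma gen (K : CochainComplex (ModuleCat.{u} Λ) ℤ)
    (h : Bd K ((HomotopyCategory.quotient _ _).obj
      ((HomologicalComplex.single (ModuleCat.{u} Λ) (ComplexShape.up ℤ) 0).obj (ModuleCat.of Λ Λ)))) :
    ∃ l : ℤ, ∀ Y : DerivedCategory (ModuleCat.{u} Λ), FGC Y → V (Q.obj K) 0 Y → Y.IsLE l := by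
  obtain ⟨l, hl⟩ := h
  refine ⟨l, fun Y h1 h2 => ?_⟩
  rw [DerivedCategory.isLE_iff]
  intro j hj
  obtain ⟨L, ⟨e⟩⟩ : ∃ L : CochainComplex (ModuleCat.{u} Λ) ℤ, Nonempty (Q.obj L ≅ Y⟦j⟧) :=
    ⟨_, ⟨Q.objObjPreimageIso (Y⟦j⟧)⟩⟩
  have h3 : L.ExactAt 0 := by
    apply exactAt_of_hom_zero
    intro f
    have h4 := hl Y h1 h2 j hj ((quotientCompQhIso _).hom.app _ ≫ f ≫ e.hom)
    rw [← cancel_epi ((quotientCompQhIso _).hom.app _), ← cancel_mono e.hom, assoc, h4, comp_zero, zero_comp]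
  have e1 : (homologyFunctor (ModuleCat.{u} Λ) 0).obj (Y⟦j⟧) ≅ (homologyFunctor (ModuleCat.{u} Λ) j).obj Y :=
    (((homologyFunctor (ModuleCat.{u} Λ) 0).shiftIso j 0 j (by lia)).app Y)
  exact ((coh_zero L 0 h3).of_iso ((homologyFunctor (ModuleCat.{u} Λ) 0).mapIso e).symm).of_iso e1.symm

end Pool.Agent.H381.TauN
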