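import Pool.Agent.H381.TauN.D

open CategoryTheory Category Limits Pretriangulated Triangulated DerivedCategory ZeroObject

set_option autoImplicit false

namespace Pool.Agent.H381.TauN

universe w v u

section
variable {A : Type u} [Category.{v} A] [Abelian A] [HasDerivedCategory.{w} A]

lemma hom_shift_zero_iff (X Y : DerivedCategory A) (a b : ℤ) (h : a + b = 0) :
    (∀ f : X⟦a⟧ ⟶ Y, f = 0) ↔ ∀ f : X ⟶ Y⟦b⟧, f = 0 := by
  constructor
  · intro H f
    have h1 := H ((shiftFunctor (DerivedCategory A) a).map f ≫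
      (shiftFunctorCompIsoId (DerivedCategory A) b a (by lia)).hom.app Y)
    have h2 : (shiftFunctor (DerivedCategory A) a).map f = 0 := by
      rw [← cancel_mono ((shiftFunctorCompIsoId (DerivedCategory A) b a (by lia)).hom.app Y), h1, zero_comp]
    exact (shiftFunctor (DerivedCategory A) a).map_injective (by rw [h2, Functor.map_zero])
  · intro H f
    have h1 := H ((shiftFunctorCompIsoId (DerivedCategory A) a b h).inv.app X ≫
      (shiftFunctor (DerivedCategory A) b).map f)
    have h2 : (shiftFunctor (DerivedCategory A) b).map f = 0 := by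
      rw [← cancel_epi ((shiftFunctorCompIsoId (DerivedCategory A) a b h).inv.app X), h1, comp_zero]
    exact (shiftFunctor (DerivedCategory A) b).map_injective (by rw [h2, Functor.map_zero])

lemma Q_map_zero_iff (K L : CochainComplex A ℤ) [K.IsKProjective] (φ : K ⟶ L) :
    Q.map φ = 0 ↔ (HomotopyCategory.quotient _ _).map φ = 0 := by
  constructor
  · intro h
    obtain ⟨H⟩ := Q_map_zero K L φ h
    exact (HomotopyCategory.quotient_map_eq_zero_iff φ).2 ⟨H⟩
  · intro h
    rw [← cancel_epi ((quotientCompQhIso _).hom.app K), ← quotientCompQhIso_hom_naturality, h,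
        Functor.map_zero, zero_comp, comp_zero]

lemma hom_single_zero_iff (K : CochainComplex A ℤ) [K.IsKProjective] (N : A) (i p : ℤ) (hp : p + i = 0) :
    (∀ f : Q.obj K ⟶ ((singleFunctor A 0).obj N)⟦i⟧, f = 0) ↔
      ∀ g : K.X p ⟶ N, K.d (p - 1) p ≫ g = 0 → ∃ h : K.X (p + 1) ⟶ N, K.d p (p + 1) ≫ h = g := by
  let L : CochainComplex A ℤ := (CochainComplex.singleFunctor A 0).obj N
  let e : Q.obj (L⟦i⟧) ≅ ((singleFunctor A 0).obj N)⟦i⟧ :=
    (Q.commShiftIso i).app L ≪≫ (shiftFunctor (DerivedCategory A) i).mapIso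
      ((singleFunctorIsoCompQ A 0).symm.app N)
  have key : (∀ f : Q.obj K ⟶ ((singleFunctor A 0).obj N)⟦i⟧, f = 0) ↔
      ∀ φ : K ⟶ L⟦i⟧, (HomotopyCategory.quotient _ _).map φ = 0 := by
    constructor
    · intro H φ
      rw [← Q_map_zero_iff, ← cancel_mono e.hom, H (Q.map φ ≫ e.hom), zero_comp]
    · intro H f
      obtain ⟨φ, hφ⟩ := Q_map_surj K (L⟦i⟧) (f ≫ e.inv)
      rw [← cancel_mono e.inv, ← hφ, (Q_map_zero_iff K _ φ).2 (H φ), zero_comp]
  rw [key]
  constructor
  · intro H g hg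
    let x := CochainComplex.HomComplex.Cocycle.toSingleMk g hp (p - 1) (by lia) hg
    have h1 := H (CochainComplex.HomComplex.Cocycle.equivHomShift.symm x)
    rw [← CochainComplex.HomComplex.CohomologyClass.toHom_mk,
      CochainComplex.HomComplex.CohomologyClass.toHom_mk_eq_zero_iff] at h1
    exact (CochainComplex.HomComplex.Cocycle.toSingleMk_mem_coboundaries_iff g hp _ _ hg (p + 1) rfl).1 h1
  · intro H φ
    obtain ⟨g, hg, hx⟩ := CochainComplex.HomComplex.Cocycle.toSingleMk_surjective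
      (CochainComplex.HomComplex.Cocycle.equivHomShift φ) p hp (p - 1) (by lia)
    have h1 := (CochainComplex.HomComplex.Cocycle.toSingleMk_mem_coboundaries_iff g hp (p - 1) (by lia) hg (p + 1) rfl).2
      (H g hg)
    rw [hx, ← CochainComplex.HomComplex.CohomologyClass.toHom_mk_eq_zero_iff,
      CochainComplex.HomComplex.CohomologyClass.toHom_mk] at h1
    simpa using h1

lemma hom_zero_iff_of_cone (T : Triangle (DerivedCategory A)) (hT : T ∈ distTriang _) (n i : ℤ)
    (hW : T.obj₃.IsLE (-n - 1)) (Z : DerivedCategory A) (hZ : Z.IsGE 0) (hi : i < n) :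
    (∀ f : T.obj₁ ⟶ Z⟦i⟧, f = 0) ↔ (∀ f : T.obj₂ ⟶ Z⟦i⟧, f = 0) := by
  have hZi : (Z⟦i⟧).IsGE (-i) := TStructure.t.isGE_shift Z 0 i (-i) (by lia)
  constructor
  · intro H f
    obtain ⟨b, hb⟩ := Triangle.yoneda_exact₂ _ hT f (H _)
    rw [hb, TStructure.t.zero_of_isLE_of_isGE b (-n - 1) (-i) (by lia) hW hZi, comp_zero]
  · intro H f
    have hW1 : (T.obj₃⟦(-1 : ℤ)⟧).IsLE (-n) := TStructure.t.isLE_shift T.obj₃ (-n - 1) (-1) (-n) (by lia)
    obtain ⟨b, hb⟩ : ∃ b : T.obj₂ ⟶ Z⟦i⟧, f = T.mor₁ ≫ b :=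
      Triangle.yoneda_exact₂ _ (inv_rot_of_distTriang _ hT) f
        (TStructure.t.zero_of_isLE_of_isGE _ (-n) (-i) (by lia) hW1 hZi)
    rw [hb, H b, comp_zero]

lemma cone_isLE (T : Triangle (DerivedCategory A)) (hT : T ∈ distTriang _) (n : ℤ) (hn : 1 ≤ n)
    (h1 : ∀ i : ℤ, -n < i → i ≠ 0 → IsZero ((homologyFunctor A i).obj T.obj₁))
    (h2 : ∀ i : ℤ, i ≠ 0 → IsZero ((homologyFunctor A i).obj T.obj₂))
    (h3 : IsIso ((homologyFunctor A 0).map T.mor₁)) : T.obj₃.IsLE (-n - 1) := by
  rw [DerivedCategory.isLE_iff]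
  intro i hi
  by_cases hi0 : i = 0
  · subst hi0
    have e2 : (homologyFunctor A 0).map T.mor₂ = 0 := by
      have := (HomologySequence.epi_homologyMap_mor₁_iff T hT 0).1 inferInstance
      exact this
    exact (HomologySequence.exact₃ T hT 0 1 rfl).isZero_of_both_zeros e2
      ((h1 1 (by lia) one_ne_zero).eq_of_tgt _ _)
  · by_cases hi1 : i = -1
    · subst hi1
      have e2 : HomologySequence.δ T (-1) 0 (by lia) = 0 := by
        have := (HomologySequence.mono_homologyMap_mor₁_iff T hT (-1) 0 (by lia)).1 inferInstance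
        exact this
      exact (HomologySequence.exact₃ T hT (-1) 0 (by lia)).isZero_of_both_zeros
        ((h2 (-1) (by lia)).eq_of_src _ _) e2
    · exact isZero_third T hT i (i + 1) rfl (h2 i hi0) (h1 (i + 1) (by lia) (by lia))

end

section
variable {Λ : Type u} [Ring Λ]

attribute [local instance] HasDerivedCategory.standard

/-- the augmentation as a chain map -/
noncomputable def aug (K : CochainComplex (ModuleCat.{u} Λ) ℤ) (M : ModuleCat.{u} Λ) (π : K.X 0 ⟶ M)
    (hπ : K.d (-1) 0 ≫ π = 0) : K ⟶ (HomologicalComplex.single _ (ComplexShape.up ℤ) 0).obj M :=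
  HomologicalComplex.mkHomToSingle π (fun i hi => by
    obtain rfl : i = -1 := by
      have : i + 1 = 0 := hi
      lia
    exact hπ)

lemma isIso_aug (K : CochainComplex (ModuleCat.{u} Λ) ℤ) (M : ModuleCat.{u} Λ) (π : K.X 0 ⟶ M)
    (hπ : K.d (-1) 0 ≫ π = 0) (hs : Function.Surjective π.hom)
    (hex : ∀ x : K.X 0, π.hom x = 0 → ∃ y : K.X (-1), (K.d (-1) 0).hom y = x)
    (h1 : Subsingleton (K.X 1)) :
    IsIso ((homologyFunctor (ModuleCat.{u} Λ) 0).map (Q.map (aug K M π hπ))) := by
  have hq : QuasiIsoAt (aug K M π hπ) 0 := by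
    rw [quasiIsoAt_iff' _ (-1) 0 1 (by simp) (by simp)]
    rw [ShortComplex.quasiIso_iff_of_zeros' _ ?_ ?_ ?_]
    · constructor
      · rw [ShortComplex.moduleCat_exact_iff]
        intro x hx
        apply hex x
        change ((aug K M π hπ).f 0).hom x = 0 at hx
        rw [aug, HomologicalComplex.mkHomToSingle_f] at hx
        have h2 := congrArg (HomologicalComplex.singleObjXSelf (ComplexShape.up ℤ) 0 M).hom.hom hx
        rw [map_zero] at h2
        rw [← h2]
        change _ = ((π ≫ (HomologicalComplex.singleObjXSelf (ComplexShape.up ℤ) 0 M).inv) ≫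
          (HomologicalComplex.singleObjXSelf (ComplexShape.up ℤ) 0 M).hom).hom x
        rw [assoc, Iso.inv_hom_id, comp_id]
      · change Epi ((aug K M π hπ).f 0)
        rw [aug, HomologicalComplex.mkHomToSingle_f]
        have : Epi π := (ModuleCat.epi_iff_surjective _).2 hs
        infer_instance
    · have := ModuleCat.isZero_of_subsingleton (K.X 1)
      exact this.eq_of_tgt _ _
    · exact HomologicalComplex.single_obj_d (ComplexShape.up ℤ) _ _ _ _
    · exact HomologicalComplex.single_obj_d (ComplexShape.up ℤ) _ _ _ _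
  rw [quasiIsoAt_iff_isIso_homologyMap] at hq
  exact (NatIso.isIso_map_iff (homologyFunctorFactors (ModuleCat.{u} Λ) 0) (aug K M π hπ)).2 hq

end

end Pool.Agent.H381.TauN
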